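import Mathlib
import Pool.Agent.Lib.MP_1ce9e9_gt.H50.Star

set_option autoImplicit false

namespace Pool.Agent.Results.MP_1ce9e9_gt.AllSizes

/-- The imbalance vector of `G` at `v`: the sum of the unit vectors along the edges at `v`. -/
noncomputable def Imb (G : SimpleGraph ℂ) (v : ℂ) : ℂ :=
  ∑ᶠ w ∈ G.neighborSet v, (w - v) / ((‖w - v‖ : ℝ) : ℂ)

/-- `G` (whose edges are drawn as straight segments, each of weight one) is a geodesic net with
vertex set `V` in the plane: the edges join points of `V`, two different edges meet only at a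
common endpoint, and no vertex lies in the interior of an edge. -/
structure GeodesicNet (V : Finset ℂ) (G : SimpleGraph ℂ) : Prop where
  endpoints : ∀ a b : ℂ, G.Adj a b → a ∈ V ∧ b ∈ V
  meet : ∀ a b c d : ℂ, G.Adj a b → G.Adj c d → s(a, b) ≠ s(c, d) →
    ∀ x ∈ segment ℝ a b ∩ segment ℝ c d, (x = a ∨ x = b) ∧ (x = c ∨ x = d)
  interior : ∀ a b v : ℂ, G.Adj a b → v ∈ V → v ∈ segment ℝ a b → v = a ∨ v = b

/-- A balanced vertex has at least three edges and imbalance vector zero. -/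
def Balanced (G : SimpleGraph ℂ) (v : ℂ) : Prop :=
  3 ≤ (G.neighborSet v).ncard ∧ Imb G v = 0

/-- For every number `N₀ ≥ 24` there is a set `S` of exactly `N₀` points of the plane such that
for every `N` some CONNECTED geodesic net with edges of weight one has exactly `S` as its set of
unbalanced vertices, has a nonzero imbalance vector at every point of `S`, and has more than `N`
balanced vertices. -/
theorem result (N₀ : ℕ) (hN₀ : 24 ≤ N₀) : ∃ S : Finset ℂ, S.card = N₀ ∧
    ∀ N : ℕ, ∃ (V : Finset ℂ) (G : SimpleGraph ℂ), GeodesicNet V G ∧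
      (∀ v ∈ V, ∀ w ∈ V, G.Reachable v w) ∧
      (∀ v, v ∈ S ↔ v ∈ V ∧ ¬ Balanced G v) ∧
      (∀ v ∈ S, Imb G v ≠ 0) ∧
      N < {v | v ∈ V ∧ Balanced G v}.ncard := by
  obtain ⟨S, hS, h⟩ := Pool.Agent.Lib.MP_1ce9e9_gt.all_sizes N₀ hN₀
  refine ⟨S, hS, fun N => ?_⟩
  obtain ⟨V, G, h1, h2, h3, h4, h5⟩ := h N
  exact ⟨V, G, ⟨h1.endpoints, h1.meet, h1.interior⟩, h2, h3, h4, h5⟩

end Pool.Agent.Results.MP_1ce9e9_gt.AllSizes
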